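import Pool.Agent.MP_e90164_al.H74.Main

open Pool.Agent.MP_e90164_al.H74
open scoped Pointwise

namespace Pool.Agent.Results.MP_e90164_al.Unbounded

/-- For every `N` there is an admissible triple, with `G` generated by `G₁` and `G₂`, in which
both the nilpotency class and the dimension of `B₁B₂` exceed `N`. -/
theorem result (N : ℕ) :
    ∃ (G : Type) (_ : Group G) (_ : TopologicalSpace G) (_ : IsTopologicalGroup G)
      (_ : T2Space G) (G₁ G₂ B₁ B₂ : Subgroup G),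
      G₁ ⊔ G₂ = ⊤ ∧ IsSL2Extension B₁ G₁ ∧ IsSL2Extension B₂ G₂ ∧
      (B₁ : Set G) * (B₂ : Set G) ⊆ (G₁ : Set G) ∩ (G₂ : Set G) ∧
      ¬ B₁ ≤ B₂ ∧ ¬ B₂ ≤ B₁ ∧
      (∀ K : Subgroup G, K ≤ B₁ ⊓ B₂ → K.Normal → K = ⊥) ∧
      ∃ U : Subgroup G, (U : Set G) = (B₁ : Set G) * (B₂ : Set G) ∧ Group.IsNilpotent U ∧
        N < Group.nilpotencyClass U ∧ ∃ m d : ℕ, N < m ∧ IsLieSubgroupPair U G₁ m d :=
  main N

end Pool.Agent.Results.MP_e90164_al.Unbounded
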